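import Pool.Agent.H11.UM.IVE

set_option autoImplicit false

namespace Pool.Agent.H37.UM
namespace IV12
open PowerSeries Finset IVE

theorem dvd_g (i : ℕ) (hi : 1 ≤ i) : X ^ i ∣ g i - 1 := by
  have h1 := w_mul_g i hi
  unfold w at h1
  refine ⟨-((-1) ^ i * g i), ?_⟩
  rw [neg_pow] at h1
  linear_combination h1

theorem dvd_mul_sub {a : ℕ} {f f' : ℤ⟦X⟧} (h : X ^ a ∣ f - 1) (h' : X ^ a ∣ f' - 1) :
    X ^ a ∣ f * f' - 1 := by
  have : f * f' - 1 = (f - 1) * f' + (f' - 1) := by ring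
  rw [this]
  exact dvd_add (h.mul_right _) h'

theorem dvd_prod (a : ℕ) (ha : 1 ≤ a) (s : Multiset ℕ) (h : ∀ i ∈ s, a ≤ i) :
    X ^ a ∣ (s.map g).prod - 1 := by
  induction s using Multiset.induction_on with
  | empty => simp
  | cons i s ih =>
    rw [Multiset.map_cons, Multiset.prod_cons]
    have h1 : a ≤ i := h i (Multiset.mem_cons_self _ _)
    exact dvd_mul_sub ((pow_dvd_pow X h1).trans (dvd_g i (by omega)))
      (ih fun j hj => h j (Multiset.mem_cons_of_mem hj))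

theorem coeff_hr (a b n c : ℕ) (ha : 1 ≤ a) (hc : 1 ≤ c) (hca : c < a) :
    coeff c (hr a b n) = 0 := by
  unfold hr
  rw [map_sum]
  refine sum_eq_zero fun p hp => ?_
  rw [mem_filter] at hp
  have h1 := dvd_prod a ha p.parts fun i hi => (hp.2 i hi).1
  have h2 := (PowerSeries.X_pow_dvd_iff.1 h1) c hca
  rw [map_sub, coeff_one, if_neg (by omega), sub_zero] at h2
  exact h2

theorem coeff2_mul (f f' : ℤ⟦X⟧) : coeff 2 (f * f') =
    coeff 0 f * coeff 2 f' + coeff 1 f * coeff 1 f' + coeff 2 f * coeff 0 f' := by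
  rw [coeff_mul, Finset.Nat.sum_antidiagonal_eq_sum_range_succ_mk]
  simp [sum_range_succ]

theorem coeff1_mul (f f' : ℤ⟦X⟧) : coeff 1 (f * f') =
    coeff 0 f * coeff 1 f' + coeff 1 f * coeff 0 f' := by
  rw [coeff_mul, Finset.Nat.sum_antidiagonal_eq_sum_range_succ_mk]
  simp [sum_range_succ]

theorem coeff0_mul (f f' : ℤ⟦X⟧) : coeff 0 (f * f') = coeff 0 f * coeff 0 f' := by
  simp only [coeff_zero_eq_constantCoeff, map_mul]

theorem h2_nonneg (hG : GENStmt) (j : ℕ) : 0 ≤ coeff 0 (h2 j) := by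
  have := P2_nonneg hG j j
  rw [cf_P2, if_pos rfl, hG.2.2.2.2.2 _ _ le_rfl] at this
  exact_mod_cast this

theorem sk0 (hG : GENStmt) (n : ℕ) : (sk 0 n : ℤ) = ∑ j ∈ range (n + 1), coeff 0 (h2 j) := by
  have := sum_P2 hG n n le_rfl
  have h4 : ∑ i ∈ range (n + 1), cf i 0 (P2 n) =
      ∑ i ∈ range (n + 1), ((coeff 0 (h2 i) : ℤ) : ℝ) := by
    refine sum_congr rfl fun i hi => ?_
    rw [mem_range] at hi
    rw [cf_P2, if_pos rfl, hG.2.2.2.2.2 _ _ (by omega)]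
  rw [h4] at this
  have h3 : ((∑ j ∈ range (n + 1), coeff 0 (h2 j) : ℤ) : ℝ) = ((sk 0 n : ℤ) : ℝ) := by
    push_cast
    exact this
  exact_mod_cast h3.symm

theorem c2_rec (hG : GENStmt) (n : ℕ) :
    coeff 2 (h2 (n + 2)) = coeff 2 (h2 n) - coeff 0 (h2 n) := by
  have h1 := hG.2.2.2.1 2 (n + 2) (n + 2) (by norm_num) (by omega)
  rw [if_pos (by omega), hG.2.2.2.2.2 _ _ le_rfl, Nat.add_sub_cancel,
    hG.2.2.2.2.2 _ _ (by omega)] at h1
  rw [h1, map_add, coeff_hr 3 _ _ 2 (by norm_num) (by norm_num) (by norm_num), coeff2_mul]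
  have e0 := coeff_zero_g 2 (by norm_num)
  have h3 := w_mul_g 2 (by norm_num)
  have e1 : coeff 1 (g 2) = 0 := by
    have h4 := (PowerSeries.X_pow_dvd_iff.1 (dvd_g 2 (by norm_num))) 1 (by norm_num)
    rw [map_sub, coeff_one, if_neg (by norm_num), sub_zero] at h4
    exact h4
  have e2 : coeff 2 (g 2) = -1 := by
    have h4 := congrArg (coeff 2) h3
    rw [coeff2_mul, e0, e1, coeff_one, if_neg (by norm_num)] at h4
    have w0 : coeff 0 (w 2) = 1 := coeff_zero_w 2 (by norm_num)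
    have w2 : coeff 2 (w 2) = 1 := by
      unfold w
      rw [map_add, coeff_one, if_neg (by norm_num), neg_pow]
      simp [coeff_X_pow]
    rw [w0, w2] at h4
    linarith
  rw [e0, e1, e2]
  ring

theorem c2_ge (hG : GENStmt) (n : ℕ) : -∑ i ∈ range n, coeff 0 (h2 i) ≤ coeff 2 (h2 n) := by
  induction n using Nat.strong_induction_on with
  | _ n ih =>
    match n with
    | 0 => simp [h2_zero hG]
    | 1 =>
      have : coeff 2 (h2 1) = 0 := by
        have h1 := hG.2.2.2.1 2 2 1 (by norm_num) (by omega)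
        rw [if_neg (by omega), add_zero, hG.2.2.2.2.2 _ _ (by norm_num)] at h1
        rw [h1]
        exact coeff_hr 3 _ _ 2 (by norm_num) (by norm_num) (by norm_num)
      rw [this, sum_range_one, h2_zero hG]
      simp
    | n + 2 =>
      rw [c2_rec hG, sum_range_succ, sum_range_succ]
      have h1 := ih n (by omega)
      have h3 := h2_nonneg hG (n + 1)
      linarith

theorem c2_ge' (hG : GENStmt) (n : ℕ) : -(sk 0 n : ℤ) ≤ coeff 2 (h2 n) := by
  have h1 := c2_ge hG n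
  have h3 := h2_nonneg hG n
  rw [sk0 hG, sum_range_succ]
  linarith

theorem coeff_g1 (k : ℕ) : coeff k (g 1) = 1 := by
  rw [g_one, coeff_mk]
  rfl

theorem sk_succ (m n : ℕ) : sk (m + 1) (n + 1) = sk (m + 1) n + sk m (n + 1) := by
  have e1 : sk (m + 1) (n + 1) = ∑ j ∈ range (n + 1 + 1), sk m j := rfl
  have e2 : sk (m + 1) n = ∑ j ∈ range (n + 1), sk m j := rfl
  rw [e1, e2, sum_range_succ]

theorem sk_zero_right (m : ℕ) : sk m 0 = 1 := by
  induction m with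
  | zero =>
    unfold sk
    decide
  | succ m ih =>
    have e1 : sk (m + 1) 0 = ∑ j ∈ range (0 + 1), sk m j := rfl
    rw [e1, sum_range_succ, sum_range_zero, zero_add, ih]

theorem coeff0_h (n : ℕ) : coeff 0 (h n) = (sk 0 n : ℤ) := by
  rw [coeff_zero_h]
  rfl

theorem coeff1_h (hG : GENStmt) (n : ℕ) : coeff 1 (h n) = (sk 1 n : ℤ) - sk 0 n := by
  induction n with
  | zero =>
    rw [h_zero hG, sk_zero_right, sk_zero_right]
    simp [coeff_one]
  | succ n ih =>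
    rw [h_rec hG, map_add, coeff1_mul, coeff_g1, coeff_g1, coeff0_h, ih, sk_succ,
      ← hG.2.2.2.2.2 _ _ le_rfl, coeff_hr 2 _ _ 1 (by norm_num) (by norm_num) (by norm_num)]
    push_cast
    ring

theorem coeff2_h (hG : GENStmt) (n : ℕ) :
    (sk 2 n : ℤ) - 2 * sk 1 n ≤ coeff 2 (h n) := by
  have key : ∀ n, coeff 2 (h n) = (sk 2 n : ℤ) - sk 1 n + ∑ j ∈ range (n + 1), coeff 2 (h2 j) := by
    intro n
    induction n with
    | zero =>
      rw [h_zero hG, sk_zero_right, sk_zero_right]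
      simp [coeff_one, h2_zero hG]
    | succ n ih =>
      rw [h_rec hG, map_add, coeff2_mul, coeff_g1, coeff_g1, coeff_g1, coeff0_h, ih,
        coeff1_h hG, sk_succ, sum_range_succ _ (n + 1)]
      push_cast
      ring
  rw [key]
  have h1 : -(sk 1 n : ℤ) ≤ ∑ j ∈ range (n + 1), coeff 2 (h2 j) := by
    have e1 : sk 1 n = ∑ j ∈ range (n + 1), sk 0 j := rfl
    rw [e1, Nat.cast_sum, ← sum_neg_distrib]
    exact sum_le_sum fun j _ => c2_ge' hG j
  linarith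

/-- the series `1 + 0 y + (≥ 0) y ^ 2 + ...` -/
def Gd (f : ℤ⟦X⟧) : Prop := coeff 0 f = 1 ∧ coeff 1 f = 0 ∧ 0 ≤ coeff 2 f

theorem Gd.mul {f f' : ℤ⟦X⟧} (h : Gd f) (h' : Gd f') : Gd (f * f') := by
  refine ⟨?_, ?_, ?_⟩
  · rw [coeff0_mul, h.1, h'.1, one_mul]
  · rw [coeff1_mul, h.2.1, h'.2.1]
    simp
  · rw [coeff2_mul, h.2.1, h'.2.1, h.1, h'.1]
    have := h.2.2
    have := h'.2.2
    linarith

theorem Gd.one : Gd 1 := by
  refine ⟨?_, ?_, ?_⟩ <;> simp [coeff_one]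

theorem Gd.w {i : ℕ} (hi : 2 ≤ i) : Gd (w i) := by
  refine ⟨coeff_zero_w i (by omega), ?_, ?_⟩
  · unfold UM.w
    have h1 : ((-X : ℤ⟦X⟧)) ^ i = C ((-1) ^ i) * X ^ i := by
      rw [neg_pow]
      simp
    rw [map_add, coeff_one, h1, coeff_C_mul, coeff_X_pow, if_neg (by omega), if_neg (by omega)]
    simp
  · unfold UM.w
    have h1 : ((-X : ℤ⟦X⟧)) ^ i = C ((-1) ^ i) * X ^ i := by
      rw [neg_pow]
      simp
    rw [map_add, coeff_one, h1, coeff_C_mul, coeff_X_pow, if_neg (by omega)]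
    by_cases h2 : 2 = i
    · subst h2
      norm_num
    · rw [if_neg h2]
      simp

theorem Gd.pow {f : ℤ⟦X⟧} (h : Gd f) (n : ℕ) : Gd (f ^ n) := by
  induction n with
  | zero => simpa using Gd.one
  | succ n ih => rw [pow_succ]; exact ih.mul h

theorem Gd.R (n : ℕ) : Gd (∏ i ∈ Icc 2 n, UM.w i ^ cc n i) := by
  refine Finset.prod_induction _ Gd (fun _ _ h h' => h.mul h') Gd.one fun i hi => ?_
  rw [mem_Icc] at hi
  exact (Gd.w hi.1).pow _

theorem e012 (m : ℕ) : coeff 0 ((1 - X : ℤ⟦X⟧) ^ m) = 1 ∧ coeff 1 ((1 - X : ℤ⟦X⟧) ^ m) = -m ∧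
    0 ≤ coeff 2 ((1 - X : ℤ⟦X⟧) ^ m) := by
  induction m with
  | zero => refine ⟨?_, ?_, ?_⟩ <;> simp [coeff_one]
  | succ m ih =>
    obtain ⟨h0, h1, h2⟩ := ih
    have e : (1 - X : ℤ⟦X⟧) ^ (m + 1) = (1 - X) ^ m - X * (1 - X) ^ m := by ring
    rw [e]
    refine ⟨?_, ?_, ?_⟩
    · rw [map_sub, h0]
      simp
    · rw [map_sub, h1, show (1 : ℕ) = 0 + 1 from rfl, coeff_succ_X_mul, h0]
      push_cast
      ring
    · rw [map_sub, show (2 : ℕ) = 1 + 1 from rfl, coeff_succ_X_mul, h1]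
      have : (0 : ℤ) ≤ m := by positivity
      have h2' : 0 ≤ coeff (1 + 1) ((1 - X : ℤ⟦X⟧) ^ m) := h2
      linarith

theorem P_eq (n : ℕ) (hn : 1 ≤ n) : (1 - X) * P n =
    (1 - X) ^ (Nat.log 2 n + 2) * (∏ i ∈ Icc 2 n, w i ^ cc n i) * h n := by
  unfold P
  rw [den_eq n hn, w_one]
  ring

theorem df_P1 (hG : GENStmt) (n : ℕ) (hn : 1 ≤ n) :
    df (P n) 1 = (sk 1 n : ℤ) - (Nat.log 2 n + 3) * sk 0 n := by
  unfold df
  rw [P_eq n hn]
  obtain ⟨h0, h1, h2⟩ := e012 (Nat.log 2 n + 2)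
  obtain ⟨g0, g1, g2⟩ := Gd.R n
  rw [coeff1_mul, coeff1_mul, coeff0_mul, h0, h1, g0, g1, coeff0_h, coeff1_h hG]
  push_cast
  ring

theorem df_P2 (hG : GENStmt) (n : ℕ) (hn : 1 ≤ n) :
    (sk 2 n : ℤ) - (Nat.log 2 n + 4) * sk 1 n ≤ df (P n) 2 := by
  unfold df
  rw [P_eq n hn]
  obtain ⟨h0, h1, h2⟩ := e012 (Nat.log 2 n + 2)
  obtain ⟨g0, g1, g2⟩ := Gd.R n
  rw [coeff2_mul, coeff2_mul, coeff1_mul, coeff0_mul, h0, h1, g0, g1, coeff0_h, coeff1_h hG]
  have h3 := coeff2_h hG n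
  have h4 : (0 : ℤ) ≤ sk 0 n := by positivity
  have h5 : (0 : ℤ) ≤ (coeff 2 ((1 - X : ℤ⟦X⟧) ^ (Nat.log 2 n + 2))) * sk 0 n := mul_nonneg h2 h4
  have h6 : (0 : ℤ) ≤ (coeff 2 (∏ i ∈ Icc 2 n, w i ^ cc n i)) * sk 0 n := mul_nonneg g2 h4
  have h7 : (0 : ℤ) ≤ ((Nat.log 2 n + 2 : ℕ) : ℤ) * sk 0 n := mul_nonneg (by positivity) h4
  push_cast at h7 ⊢
  nlinarith

theorem log_bound (n : ℕ) (hn : 1300 ≤ n) :
    (Nat.log 2 n + 4 : ℝ) ≤ 0.4 * √(n : ℝ) := by
  have key : 25 * (Nat.log 2 n + 4) ^ 2 ≤ 4 * n := by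
    rcases Nat.lt_or_ge n 2048 with h | h
    · have h1 : Nat.log 2 n = 10 := by
        rw [Nat.log_eq_iff (by norm_num)]
        constructor <;> omega
      rw [h1]
      omega
    · have h1 : 11 ≤ Nat.log 2 n := by
        rw [Nat.le_log_iff_pow_le (by norm_num) (by omega)]
        omega
      have h2 : 2 ^ Nat.log 2 n ≤ n := Nat.pow_log_le_self 2 (by omega)
      have h3 : ∀ m, 11 ≤ m → 25 * (m + 4) ^ 2 ≤ 4 * 2 ^ m := by
        intro m hm
        induction m, hm using Nat.le_induction with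
        | base => norm_num
        | succ m hm ih =>
          have h4 : 2 ^ (m + 1) = 2 * 2 ^ m := by ring
          rw [h4]
          nlinarith
      exact (h3 _ h1).trans (by omega)
  have h1 : (Nat.log 2 n + 4 : ℝ) ^ 2 ≤ (0.4 * √(n : ℝ)) ^ 2 := by
    rw [mul_pow, Real.sq_sqrt (by positivity)]
    have : (25 * (Nat.log 2 n + 4 : ℝ) ^ 2) ≤ 4 * n := by exact_mod_cast key
    linarith
  exact le_of_sq_le_sq h1 (by positivity)

end IV12

open PowerSeries Finset IVE IV12 in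
theorem IV12_thm (_ : RECStmt) (hG : GENStmt) (hT : IVTStmt) (hU : IVUStmt) : IV12Stmt := by
  intro n hn
  have hdf : ∀ k, df (XX n) k = 2 * n * df (P n) k - (n + 2) * df (T n) k := by
    intro k
    unfold df XX
    have h1 : (1 - X) * ((2 * n : ℤ⟦X⟧) * P n - (n + 2 : ℤ⟦X⟧) * T n) =
        C (2 * n : ℤ) * ((1 - X) * P n) - C (n + 2 : ℤ) * ((1 - X) * T n) := by
      simp only [map_mul, map_add, map_natCast, map_ofNat]
      ring
    rw [h1, map_sub, coeff_C_mul, coeff_C_mul]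
  have hlog := log_bound n hn
  have hs : 0 < √(n : ℝ) := Real.sqrt_pos.2 (by exact_mod_cast (by omega : 0 < n))
  have hnn : (1300 : ℝ) ≤ n := by exact_mod_cast hn
  have fin : ∀ (a b c : ℝ) (e : ℝ), 0 ≤ a → 0 ≤ b → √(n : ℝ) * b ≤ 2 * a → e ≤ 0.4 * √(n : ℝ) →
      4 * |c| ≤ a → 0 ≤ 2 * (n : ℝ) * (a - e * b) - (n + 2) * c := by
    intro a b c e ha hb h1 h2 h3
    have h4 : e * b ≤ 0.8 * a := by
      have : e * b ≤ 0.4 * √(n : ℝ) * b := mul_le_mul_of_nonneg_right h2 hb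
      nlinarith
    have h5 : c ≤ a / 4 := by
      have := le_abs_self c
      linarith
    have h6 : ((n : ℝ) + 2) * c ≤ (n + 2) * (a / 4) := mul_le_mul_of_nonneg_left h5 (by positivity)
    have h7 : 2 * (n : ℝ) * (0.2 * a) ≤ 2 * (n : ℝ) * (a - e * b) :=
      mul_le_mul_of_nonneg_left (by linarith) (by positivity)
    nlinarith
  have hmono : ∀ k, 1 ≤ k → (sk k (n - (Nat.log 2 n + 3)) : ℝ) ≤ sk k n := by
    intro k hk
    exact_mod_cast sk_mono k _ _ hk (Nat.sub_le _ _)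
  constructor
  · have h1 := (hT n n 1 hn le_rfl (by omega) le_rfl).1 (by norm_num)
    have h2 := hU n 1 hn le_rfl (Or.inl (by norm_num))
    have h2' : 4 * |((df (T n) 1 : ℤ) : ℝ)| ≤ (sk 1 n : ℝ) := by
      refine le_trans ?_ (hmono 1 le_rfl)
      exact_mod_cast h2
    have h3 := fin (sk 1 n) (sk 0 n) (df (T n) 1) (Nat.log 2 n + 3) (by positivity) (by positivity)
      (by simpa using h1) (by linarith) h2'
    rw [hdf, df_P1 hG n (by omega)]
    exact_mod_cast h3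
  · have h1 := (hT n n 2 hn le_rfl (by omega) (by norm_num)).1 (by norm_num)
    have h2 := hU n 2 hn (by norm_num) (Or.inl (by norm_num))
    have h2' : 4 * |((df (T n) 2 : ℤ) : ℝ)| ≤ (sk 2 n : ℝ) := by
      refine le_trans ?_ (hmono 2 (by norm_num))
      exact_mod_cast h2
    have h3 := fin (sk 2 n) (sk 1 n) (df (T n) 2) (Nat.log 2 n + 4) (by positivity) (by positivity)
      (by simpa using h1) hlog h2'
    have h4 := df_P2 hG n (by omega)
    have h5 : (0 : ℤ) ≤ 2 * n * ((sk 2 n : ℤ) - (Nat.log 2 n + 4) * sk 1 n) -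
        (n + 2) * df (T n) 2 := by
      exact_mod_cast h3
    rw [hdf]
    have h6 : 2 * (n : ℤ) * ((sk 2 n : ℤ) - (Nat.log 2 n + 4) * sk 1 n) ≤
        2 * n * df (P n) 2 := mul_le_mul_of_nonneg_left h4 (by positivity)
    linarith

end Pool.Agent.H37.UM
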