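import Pool.Agent.H37.UM.Stmts

set_option autoImplicit false

namespace Pool.Agent.H37.UM
namespace IVE
open PowerSeries Finset

/-! ### series in `z` (outer variable) over series in `y` -/

abbrev R2 := PowerSeries (PowerSeries ℝ)

/-- the coefficient of `z ^ j y ^ a` -/
noncomputable def cf (j a : ℕ) (F : R2) : ℝ := coeff a (coeff j F)

theorem cf_add (j a : ℕ) (F G : R2) : cf j a (F + G) = cf j a F + cf j a G := by
  simp [cf]

theorem cf_mul (j a : ℕ) (F G : R2) : cf j a (F * G) =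
    ∑ p ∈ antidiagonal j, ∑ q ∈ antidiagonal a, cf p.1 q.1 F * cf p.2 q.2 G := by
  unfold cf
  rw [coeff_mul, map_sum]
  refine sum_congr rfl fun p _ => ?_
  rw [coeff_mul]

theorem cf_one (j a : ℕ) : cf j a 1 = if j = 0 ∧ a = 0 then 1 else 0 := by
  unfold cf
  rw [coeff_one]
  by_cases hj : j = 0 <;> simp [hj, coeff_one]

theorem cf_C (j a : ℕ) (f : PowerSeries ℝ) : cf j a (C f) = if j = 0 then coeff a f else 0 := by
  unfold cf
  rw [coeff_C]
  split_ifs <;> simp

theorem cf_C_mul (j a : ℕ) (f : PowerSeries ℝ) (F : R2) :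
    cf j a (C f * F) = coeff a (f * coeff j F) := by
  unfold cf
  rw [coeff_C_mul]

theorem cf_Y_mul (j a i : ℕ) (F : R2) :
    cf j a (C (X ^ i) * F) = if i ≤ a then cf j (a - i) F else 0 := by
  rw [cf_C_mul, coeff_X_pow_mul']
  rfl

theorem cf_Z_mul (j a i : ℕ) (F : R2) :
    cf j a (X ^ i * F) = if i ≤ j then cf (j - i) a F else 0 := by
  unfold cf
  rw [coeff_X_pow_mul']
  split_ifs <;> simp

theorem cf_ext {F G : R2} (h : ∀ j a, cf j a F = cf j a G) : F = G := by
  ext j a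
  exact h j a

/-- nonnegative coefficients -/
def Nn (F : R2) : Prop := ∀ j a, 0 ≤ cf j a F

/-- coefficientwise domination -/
def Dm (F G : R2) : Prop := ∀ j a, |cf j a F| ≤ cf j a G

theorem Dm.nn {F G : R2} (h : Dm F G) : Nn G := fun j a => (abs_nonneg _).trans (h j a)

theorem Nn.dm {F : R2} (h : Nn F) : Dm F F := fun j a => by rw [abs_of_nonneg (h j a)]

theorem Dm.mul {F G F' G' : R2} (h : Dm F G) (h' : Dm F' G') : Dm (F * F') (G * G') := by
  intro j a
  rw [cf_mul, cf_mul]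
  refine (abs_sum_le_sum_abs _ _).trans (sum_le_sum fun p _ => ?_)
  refine (abs_sum_le_sum_abs _ _).trans (sum_le_sum fun q _ => ?_)
  rw [abs_mul]
  exact mul_le_mul (h _ _) (h' _ _) (abs_nonneg _) (h.nn _ _)

theorem Dm.add {F G F' G' : R2} (h : Dm F G) (h' : Dm F' G') : Dm (F + F') (G + G') := by
  intro j a
  rw [cf_add, cf_add]
  exact (abs_add_le _ _).trans (add_le_add (h _ _) (h' _ _))

theorem Nn.mul {F G : R2} (h : Nn F) (h' : Nn G) : Nn (F * G) := (h.dm.mul h'.dm).nn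

theorem Nn.add {F G : R2} (h : Nn F) (h' : Nn G) : Nn (F + G) := (h.dm.add h'.dm).nn

theorem Nn.one : Nn 1 := by
  intro j a
  rw [cf_one]
  split_ifs <;> norm_num

theorem Nn.pow {F : R2} (h : Nn F) (n : ℕ) : Nn (F ^ n) := by
  induction n with
  | zero => simpa using Nn.one
  | succ n ih => rw [pow_succ]; exact ih.mul h

theorem Dm.add_right {F G H : R2} (h : Dm F G) (h' : Nn H) : Dm F (G + H) := by
  intro j a
  rw [cf_add]
  exact (h j a).trans (le_add_of_nonneg_right (h' j a))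

theorem Dm.pow {F G : R2} (h : Dm F G) (n : ℕ) : Dm (F ^ n) (G ^ n) := by
  induction n with
  | zero => simpa using Nn.one.dm
  | succ n ih => rw [pow_succ, pow_succ]; exact ih.mul h

/-- domination for the solutions of linear equations -/
theorem Dm.rec' {F G F0 G0 u v : R2} (hF : F = F0 + u * F) (hG : G = G0 + v * G)
    (h0 : Dm F0 G0) (huv : Dm u v) (hv : cf 0 0 v = 0) : Dm F G := by
  have hu : cf 0 0 u = 0 := by
    have := huv 0 0
    rw [hv] at this
    exact abs_nonpos_iff.1 this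
  have key : ∀ s j a, j + a = s → |cf j a F| ≤ cf j a G := by
    intro s
    induction s using Nat.strong_induction_on with
    | _ s ih =>
      intro j a hs
      rw [hF, hG, cf_add, cf_add, cf_mul, cf_mul]
      refine (abs_add_le _ _).trans (add_le_add (h0 j a) ?_)
      refine (abs_sum_le_sum_abs _ _).trans (sum_le_sum fun p hp => ?_)
      refine (abs_sum_le_sum_abs _ _).trans (sum_le_sum fun q hq => ?_)
      rw [HasAntidiagonal.mem_antidiagonal] at hp hq
      rw [abs_mul]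
      by_cases h00 : p.1 = 0 ∧ q.1 = 0
      · rw [h00.1, h00.2, hu, hv]
        simp
      · have hlt : p.2 + q.2 < s := by
          rcases Nat.eq_zero_or_pos p.1 with h1 | h1
          · have : 0 < q.1 := Nat.pos_of_ne_zero fun h => h00 ⟨h1, h⟩
            omega
          · omega
        have h2 := ih _ hlt p.2 q.2 rfl
        exact mul_le_mul (huv _ _) h2 (abs_nonneg _) (huv.nn _ _)
  exact fun j a => key _ j a rfl

/-- summation in `z` -/
noncomputable def Sv : R2 := PowerSeries.mk 1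

theorem Sv_mul : Sv * (1 - X) = 1 := mk_one_mul_one_sub_eq_one _

theorem Sv_nn : Nn Sv := by
  intro j a
  unfold cf Sv
  rw [coeff_mk, Pi.one_apply, coeff_one]
  split_ifs <;> norm_num

theorem cf_Sv_mul (j a : ℕ) (F : R2) : cf j a (Sv * F) = ∑ i ∈ range (j + 1), cf i a F := by
  unfold cf Sv
  rw [coeff_mul, map_sum, Finset.Nat.sum_antidiagonal_eq_sum_range_succ_mk]
  simp only [coeff_mk, Pi.one_apply, one_mul]
  rw [← Finset.sum_range_reflect]
  refine sum_congr rfl fun i hi => ?_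
  rw [mem_range] at hi
  have h2 : j - (j + 1 - 1 - i) = i := by omega
  rw [h2]

theorem cf_Sv_pow_mul (j a b : ℕ) (F : R2) : cf j a (Sv ^ (b + 1) * F) =
    ∑ i ∈ range (j + 1), ((b + (j - i)).choose b : ℝ) * cf i a F := by
  unfold cf Sv
  rw [mk_one_pow_eq_mk_choose_add, coeff_mul, map_sum,
    Finset.Nat.sum_antidiagonal_eq_sum_range_succ_mk]
  simp only [coeff_mk]
  rw [← Finset.sum_range_reflect]
  refine sum_congr rfl fun i hi => ?_
  rw [mem_range] at hi
  have h1 : j + 1 - 1 - i = j - i := by omega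
  have h2 : j - (j - i) = i := by omega
  rw [h1, h2]
  have : (((b + (j - i)).choose b : ℕ) : PowerSeries ℝ) = C (((b + (j - i)).choose b : ℕ) : ℝ) := by
    simp
  rw [this, coeff_C_mul]

/-- the inverse of `1 - y ^ i S` -/
theorem exists_inv (i : ℕ) (hi : 1 ≤ i) : ∃ G : R2, G * (1 - C (X ^ i) * Sv) = 1 := by
  have h : IsUnit (1 - C (X ^ i) * Sv : R2) := by
    rw [PowerSeries.isUnit_iff_constantCoeff, PowerSeries.isUnit_iff_constantCoeff]
    have : (constantCoeff (R := ℝ)) ((constantCoeff (R := PowerSeries ℝ))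
        (1 - C (X ^ i) * Sv)) = 1 := by
      simp [Sv, show i ≠ 0 by omega]
    rw [this]
    exact isUnit_one
  obtain ⟨v, hv⟩ := h
  exact ⟨(v⁻¹ : R2ˣ), by rw [← hv]; exact Units.inv_mul v⟩

noncomputable def yi (i : ℕ) : R2 := if h : 1 ≤ i then (exists_inv i h).choose else 1

theorem yi_mul (i : ℕ) (hi : 1 ≤ i) : yi i * (1 - C (X ^ i) * Sv) = 1 := by
  unfold yi
  rw [dif_pos hi]
  exact (exists_inv i hi).choose_spec

theorem yi_eq (i : ℕ) (hi : 1 ≤ i) : yi i = 1 + C (X ^ i) * Sv * yi i := by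
  have := yi_mul i hi
  linear_combination this

theorem Y_nn (i : ℕ) : Nn (C (X ^ i)) := by
  intro j a
  rw [cf_C]
  split_ifs
  · rw [coeff_X_pow]
    split_ifs <;> norm_num
  · exact le_rfl

theorem Z_nn (i : ℕ) : Nn (X ^ i : R2) := by
  intro j a
  unfold cf
  rw [coeff_X_pow]
  split_ifs
  · rw [coeff_one]
    split_ifs <;> norm_num
  · simp

theorem cf_00_Y_mul (i : ℕ) (hi : 1 ≤ i) (F : R2) : cf 0 0 (C (X ^ i) * F) = 0 := by
  rw [cf_Y_mul, if_neg (by omega)]

theorem yi_nn (i : ℕ) (hi : 1 ≤ i) : Nn (yi i) := by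
  refine (Dm.rec' (yi_eq i hi) (yi_eq i hi) Nn.one.dm ((Y_nn i).mul Sv_nn).dm ?_).nn
  exact cf_00_Y_mul i hi _

/-! ### domination of the sums over partitions -/

/-- integer series as real series -/
noncomputable def toR (f : ℤ⟦X⟧) : PowerSeries ℝ := PowerSeries.map (Int.castRingHom ℝ) f

theorem toR_mul (f f' : ℤ⟦X⟧) : toR (f * f') = toR f * toR f' := by simp [toR]
theorem toR_add (f f' : ℤ⟦X⟧) : toR (f + f') = toR f + toR f' := by simp [toR]
theorem toR_one : toR 1 = 1 := by simp [toR]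
theorem toR_zero : toR 0 = 0 := by simp [toR]
theorem coeff_toR (a : ℕ) (f : ℤ⟦X⟧) : coeff a (toR f) = ((coeff a f : ℤ) : ℝ) := by simp [toR]
theorem toR_w (i : ℕ) : toR (w i) = 1 + (-X) ^ i := by simp [toR, w]
theorem toR_pow (f : ℤ⟦X⟧) (n : ℕ) : toR (f ^ n) = toR f ^ n := by simp [toR]
theorem toR_prod (s : Finset ℕ) (f : ℕ → ℤ⟦X⟧) : toR (∏ i ∈ s, f i) = ∏ i ∈ s, toR (f i) := by
  simp [toR, map_prod]

theorem w_mul_g (i : ℕ) (hi : 1 ≤ i) : w i * g i = 1 := by
  unfold g
  refine PowerSeries.mul_invOfUnit _ _ ?_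
  simp [w, show i ≠ 0 by omega]

theorem coeff_zero_w (i : ℕ) (hi : 1 ≤ i) : coeff 0 (w i) = 1 := by
  simp [w, show i ≠ 0 by omega]

theorem coeff_zero_g (i : ℕ) (hi : 1 ≤ i) : coeff 0 (g i) = 1 := by
  have := congrArg (coeff 0) (w_mul_g i hi)
  simpa [coeff_zero_w i hi, coeff_mul, show i ≠ 0 by omega, w] using this

noncomputable def HH (b : ℕ) : R2 := PowerSeries.mk fun j => toR (hr 2 b j)

noncomputable def P2 (b : ℕ) : R2 := PowerSeries.mk fun j => C ((coeff 0 (hr 2 b j) : ℤ) : ℝ)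

noncomputable def ph (b : ℕ) : R2 := P2 b * ∏ i ∈ Icc 2 b, yi i

theorem HH_rec (hG : GENStmt) (b : ℕ) (hb : 1 ≤ b) :
    HH (b + 1) = HH b + X ^ (b + 1) * (C (toR (g (b + 1))) * HH (b + 1)) := by
  ext j : 1
  rw [map_add, coeff_X_pow_mul']
  unfold HH
  rw [coeff_mk, coeff_mk, hG.2.2.1 2 b j (by norm_num) (by omega), toR_add]
  congr 1
  split_ifs
  · rw [toR_mul, coeff_C_mul, coeff_mk]
  · exact toR_zero

theorem P2_rec (hG : GENStmt) (b : ℕ) (hb : 1 ≤ b) :
    P2 (b + 1) = P2 b + X ^ (b + 1) * P2 (b + 1) := by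
  ext j : 1
  rw [map_add, coeff_X_pow_mul']
  unfold P2
  rw [coeff_mk, coeff_mk, hG.2.2.1 2 b j (by norm_num) (by omega), map_add, Int.cast_add, map_add]
  congr 1
  split_ifs
  · rw [coeff_mk, coeff_mul]
    simp [coeff_zero_g]
  · simp

theorem geom (b : ℕ) : Sv * (1 - X ^ b) = ∑ s ∈ range b, X ^ s := by
  rw [← mul_neg_geom_sum, ← mul_assoc, Sv_mul, one_mul]

theorem geom' (b : ℕ) : Sv * (1 - X ^ (b + 1)) = 1 + ∑ s ∈ range b, X ^ (s + 1) := by
  rw [geom, sum_range_succ', pow_zero, add_comm]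

theorem Nn.sum {ι : Type} (s : Finset ι) (f : ι → R2) (h : ∀ i ∈ s, Nn (f i)) :
    Nn (∑ i ∈ s, f i) := by
  classical
  induction s using Finset.induction_on with
  | empty =>
    intro j a
    simp [cf]
  | insert i s his ih =>
    rw [sum_insert his]
    exact (h i (mem_insert_self _ _)).add (ih fun k hk => h k (mem_insert_of_mem hk))

theorem rest_nn (b : ℕ) : Nn (∑ s ∈ range b, (X : R2) ^ (s + 1)) :=
  Nn.sum _ _ fun s _ => Z_nn (s + 1)

theorem ph_rec (hG : GENStmt) (b : ℕ) (hb : 1 ≤ b) : ph (b + 1) = ph b +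
    (X ^ (b + 1) + C (X ^ (b + 1)) * (Sv * (1 - X ^ (b + 1)))) * ph (b + 1) := by
  have h1 := P2_rec hG b hb
  have h2 := yi_mul (b + 1) (by omega)
  have h3 : ∏ i ∈ Icc 2 (b + 1), yi i = (∏ i ∈ Icc 2 b, yi i) * yi (b + 1) :=
    Finset.prod_Icc_succ_top (by omega) _
  unfold ph
  rw [h3]
  set Pi := ∏ i ∈ Icc 2 b, yi i
  set y := yi (b + 1)
  set Yb : R2 := C (X ^ (b + 1))
  set Zb : R2 := X ^ (b + 1)
  have h4 : P2 (b + 1) * (1 - Zb) = P2 b := by linear_combination h1
  have h5 : P2 (b + 1) * (1 - Zb) * Pi * (y * (1 - Yb * Sv)) = P2 b * Pi := by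
    rw [h2, h4, mul_one]
  linear_combination h5

theorem Dm_w (i : ℕ) : Dm (C (-(-X) ^ i)) (C (X ^ i)) := by
  intro j a
  rw [cf_C, cf_C]
  split_ifs
  · rw [map_neg, abs_neg, neg_pow, coeff_X_pow]
    have : ((-1 : PowerSeries ℝ)) ^ i = C ((-1) ^ i) := by simp
    rw [this, coeff_C_mul, coeff_X_pow]
    split_ifs <;> simp
  · simp

theorem C_mul' (f f' : PowerSeries ℝ) : (C (f * f') : R2) = C f * C f' := map_mul _ _ _

theorem HH_dm (hG : GENStmt) (b : ℕ) (hb : 1 ≤ b) : Dm (HH b) (ph b) := by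
  induction b, hb using Nat.le_induction with
  | base =>
    have h0 : HH 1 = 1 := by
      ext j : 1
      unfold HH
      rw [coeff_mk, coeff_one]
      split_ifs with h
      · rw [h, hG.1, toR_one]
      · rw [hG.2.1 2 1 j (by norm_num) (by omega), toR_zero]
    have h1 : P2 1 = 1 := by
      ext j : 1
      unfold P2
      rw [coeff_mk, coeff_one]
      split_ifs with h
      · rw [h, hG.1]
        simp
      · rw [hG.2.1 2 1 j (by norm_num) (by omega)]
        simp
    unfold ph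
    rw [h0, h1]
    simpa using Nn.one.dm
  | succ b hb ih =>
    have hK : C (toR (g (b + 1))) * HH (b + 1) = HH b +
        (C (-(-X) ^ (b + 1)) + X ^ (b + 1)) * (C (toR (g (b + 1))) * HH (b + 1)) := by
      have h1 := HH_rec hG b hb
      have h2 : (C (toR (w (b + 1))) : R2) * C (toR (g (b + 1))) = 1 := by
        rw [← C_mul', ← toR_mul, w_mul_g _ (by omega), toR_one, map_one]
      rw [toR_w, map_add, map_one] at h2
      rw [map_neg]
      linear_combination h1 + HH (b + 1) * h2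
    have hnn : Nn (∑ s ∈ range b, (X : R2) ^ (s + 1)) := rest_nn b
    have hp := ph_rec hG b hb
    have hK2 : Dm (C (toR (g (b + 1))) * HH (b + 1)) (ph (b + 1)) := by
      refine Dm.rec' hK hp ih ?_ ?_
      · rw [add_comm (X ^ (b + 1) : R2), geom', mul_add, mul_one, add_right_comm]
        exact ((Dm_w (b + 1)).add (Z_nn (b + 1)).dm).add_right ((Y_nn _).mul hnn)
      · rw [cf_add, cf_00_Y_mul _ (by omega)]
        have := cf_Z_mul 0 0 (b + 1) 1
        rw [mul_one] at this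
        rw [this]
        simp
    rw [HH_rec hG b hb, hp, add_mul, ← add_assoc]
    refine (ih.add ((Z_nn _).dm.mul hK2)).add_right (Nn.mul ?_ hK2.nn)
    rw [geom']
    exact (Y_nn _).mul (Nn.one.add hnn)

/-! ### the invariant -/

structure Inv (k j0 : ℕ) (t K : ℝ) (F : R2) (A B : PowerSeries ℝ) : Prop where
  pos : ∀ a c, 1 ≤ c → a + c ≤ k + 1 →
    cf j0 a (Sv ^ c * F) ≤ t ^ (k + 1 - c - a) * coeff a A * K
  zero : ∀ a, a ≤ k → cf j0 a F ≤ t ^ (k - a) * (coeff a B + t * (coeff a A - coeff a B)) * K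

theorem coeff_CX_mul (a i : ℕ) (x : ℝ) (A : PowerSeries ℝ) :
    coeff a (C x * X ^ i * A) = if i ≤ a then x * coeff (a - i) A else 0 := by
  rw [mul_assoc, coeff_C_mul, coeff_X_pow_mul']
  split_ifs <;> simp

theorem Inv.yi {k j0 : ℕ} {t K : ℝ} {F : R2} {A B : PowerSeries ℝ} (h : Inv k j0 t K F A B)
    (i : ℕ) (hi : 1 ≤ i) (A' : PowerSeries ℝ) (hA : A' * (1 - C (t ^ (i - 1)) * X ^ i) = A) :
    Inv k j0 t K (F * IVE.yi i) A' B := by
  set F' := F * IVE.yi i with hF'
  have e1 : ∀ c, Sv ^ c * F' = Sv ^ c * F + C (X ^ i) * (Sv ^ (c + 1) * F') := by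
    intro c
    have := yi_mul i hi
    rw [hF', pow_succ]
    linear_combination (Sv ^ c * F) * this
  have e2 : A' = A + C (t ^ (i - 1)) * X ^ i * A' := by linear_combination hA
  have hpos : ∀ a c, 1 ≤ c → a + c ≤ k + 1 →
      cf j0 a (Sv ^ c * F') ≤ t ^ (k + 1 - c - a) * coeff a A' * K := by
    intro a
    induction a using Nat.strong_induction_on with
    | _ a ih =>
      intro c hc hac
      rw [e1, cf_add, cf_Y_mul]
      rw [e2, map_add, coeff_CX_mul]
      have h1 := h.pos a c hc hac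
      split_ifs with hia
      · have h2 := ih (a - i) (by omega) (c + 1) (by omega) (by omega)
        have h3 : t ^ (k + 1 - (c + 1) - (a - i)) = t ^ (k + 1 - c - a) * t ^ (i - 1) := by
          rw [← pow_add]
          congr 1
          omega
        rw [h3] at h2
        linarith
      · linarith
  refine ⟨hpos, fun a ha => ?_⟩
  have e3 : F' = F + C (X ^ i) * (Sv ^ 1 * F') := by
    have := e1 0
    simpa using this
  have h0 := h.zero a ha
  rw [e3, cf_add, cf_Y_mul]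
  rw [e2, map_add, coeff_CX_mul]
  split_ifs with hia
  · have h2 := hpos (a - i) 1 le_rfl (by omega)
    have h3 : t ^ (k + 1 - 1 - (a - i)) = t ^ (k - a) * t * t ^ (i - 1) := by
      rw [← pow_succ, ← pow_add]
      congr 1
      omega
    rw [h3] at h2
    linarith
  · linarith

theorem Inv.Y {k j0 : ℕ} {t K : ℝ} {F : R2} {A B : PowerSeries ℝ} (h : Inv k j0 t K F A B)
    (i : ℕ) : Inv k j0 t K (F * (1 + C (X ^ i))) (A * (1 + C (t ^ i) * X ^ i))
      (B * (1 + C (t ^ i) * X ^ i)) := by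
  have eA : A * (1 + C (t ^ i) * X ^ i) = A + C (t ^ i) * X ^ i * A := by ring
  have eB : B * (1 + C (t ^ i) * X ^ i) = B + C (t ^ i) * X ^ i * B := by ring
  have eF : F * (1 + C (X ^ i)) = F + C (X ^ i) * F := by ring
  have eS : ∀ c, Sv ^ c * (F * (1 + C (X ^ i))) = Sv ^ c * F + C (X ^ i) * (Sv ^ c * F) := by
    intro c
    ring
  refine ⟨fun a c hc hac => ?_, fun a ha => ?_⟩
  · rw [eS, cf_add, cf_Y_mul, eA, map_add, coeff_CX_mul]
    have h1 := h.pos a c hc hac
    split_ifs with hia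
    · have h2 := h.pos (a - i) c hc (by omega)
      have h3 : k + 1 - c - (a - i) = (k + 1 - c - a) + i := by omega
      rw [h3, pow_add] at h2
      linarith
    · linarith
  · rw [eF, cf_add, cf_Y_mul, eA, eB, map_add, map_add, coeff_CX_mul, coeff_CX_mul]
    have h1 := h.zero a ha
    split_ifs with hia
    · have h2 := h.zero (a - i) (by omega)
      have h3 : k - (a - i) = (k - a) + i := by omega
      rw [h3, pow_add] at h2
      linarith
    · linarith

theorem Inv.Ypow {k j0 : ℕ} {t K : ℝ} {F : R2} {A B : PowerSeries ℝ} (h : Inv k j0 t K F A B)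
    (i l : ℕ) : Inv k j0 t K (F * (1 + C (X ^ i)) ^ l) (A * (1 + C (t ^ i) * X ^ i) ^ l)
      (B * (1 + C (t ^ i) * X ^ i) ^ l) := by
  induction l with
  | zero => simpa using h
  | succ l ih =>
    have := ih.Y i
    rw [pow_succ, pow_succ, ← mul_assoc, ← mul_assoc, ← mul_assoc]
    exact this

theorem Inv.prod {k j0 : ℕ} {t K : ℝ} {F : R2} (h : Inv k j0 t K F 1 1) (l m : ℕ)
    (hm : 1 ≤ m) : Inv k j0 t K (F * ∏ i ∈ Icc 2 m, ((1 + C (X ^ i)) ^ l * IVE.yi i))
      (G1 l m t) (G0 l m t) := by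
  induction m, hm using Nat.le_induction with
  | base => simpa [G1, G0] using h
  | succ m hm ih =>
    have e1 : G1 l (m + 1) t = G1 l m t * ((1 + C (t ^ (m + 1)) * X ^ (m + 1)) ^ l *
        (1 - C (t ^ (m + 1 - 1)) * X ^ (m + 1))⁻¹) := by
      unfold G1
      rw [Finset.prod_Icc_succ_top (by omega)]
    have e2 : G0 l (m + 1) t = G0 l m t * (1 + C (t ^ (m + 1)) * X ^ (m + 1)) ^ l := by
      unfold G0
      rw [Finset.prod_Icc_succ_top (by omega)]
    rw [Finset.prod_Icc_succ_top (by omega), e1, e2]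
    have := (ih.Ypow (m + 1) l).yi (m + 1) (by omega)
      (G1 l m t * ((1 + C (t ^ (m + 1)) * X ^ (m + 1)) ^ l *
        (1 - C (t ^ (m + 1 - 1)) * X ^ (m + 1))⁻¹)) ?_
    · rw [← mul_assoc F, ← mul_assoc (F * _)]
      exact this
    · rw [mul_assoc, mul_assoc, PowerSeries.inv_mul_cancel _ (by simp), mul_one]

/-! ### the start of the invariant -/

theorem h_rec (hG : GENStmt) (n : ℕ) : h (n + 1) = h2 (n + 1) + g 1 * h n := by
  have h1 := hG.2.2.2.1 1 (n + 1) (n + 1) le_rfl (by omega)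
  rw [if_pos (by omega), hG.2.2.2.2.1 _ _ le_rfl, hG.2.2.2.2.2 _ _ le_rfl,
    hG.2.2.2.2.1 _ _ (by omega)] at h1
  simpa using h1

theorem h_zero (hG : GENStmt) : h 0 = 1 := by
  rw [← hG.2.2.2.2.1 0 0 le_rfl, hG.1]

theorem h2_zero (hG : GENStmt) : h2 0 = 1 := by
  rw [← hG.2.2.2.2.2 0 0 le_rfl, hG.1]

theorem h_eq (hG : GENStmt) (n : ℕ) : h n = ∑ j ∈ range (n + 1), g 1 ^ (n - j) * h2 j := by
  induction n with
  | zero => simp [h_zero hG, h2_zero hG]
  | succ n ih =>
    rw [h_rec hG, sum_range_succ, ih, mul_sum, add_comm]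
    congr 1
    · refine sum_congr rfl fun j hj => ?_
      rw [mem_range] at hj
      rw [← mul_assoc, ← pow_succ']
      congr 2
      omega
    · simp

theorem coeff_zero_h (n : ℕ) : coeff 0 (h n) = (Fintype.card n.Partition : ℤ) := by
  unfold h
  rw [map_sum]
  have : ∀ p : n.Partition, coeff 0 (p.parts.map g).prod = 1 := by
    intro p
    rw [coeff_zero_eq_constantCoeff_apply, map_multiset_prod, Multiset.map_map]
    refine Multiset.prod_eq_one fun x hx => ?_
    rw [Multiset.mem_map] at hx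
    obtain ⟨i, hi, rfl⟩ := hx
    have := coeff_zero_g i (p.parts_pos hi)
    simpa using this
  simp [this]

theorem cf_P2 (b j a : ℕ) : cf j a (P2 b) = if a = 0 then ((coeff 0 (hr 2 b j) : ℤ) : ℝ) else 0 := by
  unfold cf P2
  rw [coeff_mk, coeff_C]

theorem sum_P2 (hG : GENStmt) (M j : ℕ) (hj : j ≤ M) :
    ∑ i ∈ range (j + 1), cf i 0 (P2 M) = (sk 0 j : ℝ) := by
  induction j with
  | zero =>
    rw [sum_range_one, cf_P2, if_pos rfl, hG.1]
    have : sk 0 0 = 1 := by
      unfold sk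
      decide
    rw [this]
    simp
  | succ j ih =>
    rw [sum_range_succ, ih (by omega), cf_P2, if_pos rfl, hG.2.2.2.2.2 _ _ hj]
    have h1 := congrArg (coeff 0) (h_rec hG j)
    have h4 : coeff 0 (g 1 * h j) = coeff 0 (g 1) * coeff 0 (h j) := by
      simp only [coeff_zero_eq_constantCoeff, map_mul]
    rw [map_add, coeff_zero_h, h4, coeff_zero_g 1 le_rfl, one_mul, coeff_zero_h] at h1
    have h3 : ((Fintype.card (j + 1).Partition : ℤ) : ℝ) =
        ((coeff 0 (h2 (j + 1)) + (Fintype.card j.Partition : ℤ) : ℤ) : ℝ) := by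
      rw [h1]
    unfold sk
    push_cast at h3
    linarith

theorem Sv_P2 (hG : GENStmt) (M m j : ℕ) (hj : j ≤ M) :
    cf j 0 (Sv ^ (m + 1) * P2 M) = (sk m j : ℝ) := by
  induction m generalizing j with
  | zero => rw [zero_add, pow_one, cf_Sv_mul, sum_P2 hG M j hj]
  | succ m ih =>
    rw [pow_succ', mul_assoc, cf_Sv_mul]
    have : sk (m + 1) j = ∑ i ∈ range (j + 1), sk m i := rfl
    rw [this, Nat.cast_sum]
    refine sum_congr rfl fun i hi => ?_
    rw [mem_range] at hi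
    exact ih i (by omega)

theorem Sv_P2' (M m j a : ℕ) (ha : a ≠ 0) : cf j a (Sv ^ (m + 1) * P2 M) = 0 := by
  rw [cf_Sv_pow_mul]
  refine sum_eq_zero fun i _ => ?_
  rw [cf_P2, if_neg ha, mul_zero]

theorem P2_nonneg (hG : GENStmt) (M i : ℕ) : 0 ≤ cf i 0 (P2 M) := by
  have hp : ∀ b, 1 ≤ b → Nn (P2 b) := by
    intro b hb
    induction b, hb using Nat.le_induction with
    | base =>
      have h1 : P2 1 = 1 := by
        ext j : 1
        unfold P2
        rw [coeff_mk, coeff_one]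
        split_ifs with h
        · rw [h, hG.1]
          simp
        · rw [hG.2.1 2 1 j (by norm_num) (by omega)]
          simp
      rw [h1]
      exact Nn.one
    | succ b hb ih =>
      refine (Dm.rec' (P2_rec hG b hb) (P2_rec hG b hb) ih.dm (Z_nn _).dm ?_).nn
      have := cf_Z_mul 0 0 (b + 1) 1
      rw [mul_one] at this
      rw [this]
      simp
  rcases Nat.eq_zero_or_pos M with h | h
  · subst h
    rw [cf_P2, if_pos rfl]
    rcases Nat.eq_zero_or_pos i with h' | h'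
    · subst h'
      rw [hG.1]
      simp
    · rw [hG.2.1 2 0 i (by norm_num) h']
      simp
  · exact hp M h i 0

theorem inv_start (hG : GENStmt) (M k j0 : ℕ) (t K : ℝ) (hj : j0 ≤ M) (h1 : ∀ c, 1 ≤ c →
    c ≤ k + 1 → (sk (c - 1) j0 : ℝ) ≤ t ^ (k + 1 - c) * K) : Inv k j0 t K (P2 M) 1 1 := by
  refine ⟨fun a c hc hac => ?_, fun a ha => ?_⟩
  · obtain ⟨m, rfl⟩ : ∃ m, c = m + 1 := ⟨c - 1, by omega⟩
    by_cases ha : a = 0
    · subst ha
      rw [Sv_P2 hG M m j0 hj]
      have := h1 (m + 1) hc (by omega)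
      simpa using this
    · rw [Sv_P2' M m j0 a ha, coeff_one, if_neg ha]
      simp
  · by_cases ha : a = 0
    · subst ha
      have h2 := h1 1 le_rfl (by omega)
      have h3 : cf j0 0 (P2 M) ≤ (sk 0 j0 : ℝ) := by
        rw [← sum_P2 hG M j0 hj]
        exact single_le_sum (f := fun i => cf i 0 (P2 M)) (fun i _ => P2_nonneg hG M i)
          (mem_range.2 (by omega))
      simp only [coeff_one, if_true, sub_self, mul_zero, add_zero, mul_one, Nat.sub_zero]
      simp only [Nat.add_sub_cancel, Nat.sub_self] at h2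
      exact h3.trans h2
    · rw [cf_P2, if_neg ha, coeff_one, if_neg ha]
      simp

/-! ### truncation -/

theorem coeff_mul_of_dvd (G f : PowerSeries ℝ) (M a : ℕ) (ha : a ≤ M) (h : X ^ (M + 1) ∣ f - 1) :
    coeff a (G * f) = coeff a G := by
  have h1 : X ^ (M + 1) ∣ G * f - G := by
    have : G * f - G = (f - 1) * G := by ring
    rw [this]
    exact Dvd.dvd.mul_right h G
  have h2 := (PowerSeries.X_pow_dvd_iff.1 h1) a (by omega)
  rw [map_sub] at h2
  linarith

theorem dvd_pow_sub (x : ℝ) (i l : ℕ) : X ^ i ∣ ((1 + C x * X ^ i) ^ l - 1 : PowerSeries ℝ) := by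
  have h1 := sub_dvd_pow_sub_pow (1 + C x * X ^ i : PowerSeries ℝ) 1 l
  rw [one_pow, add_sub_cancel_left] at h1
  exact (Dvd.intro_left _ rfl).trans h1

theorem dvd_inv_sub (x : ℝ) (i : ℕ) (hi : i ≠ 0) :
    X ^ i ∣ ((1 - C x * X ^ i)⁻¹ - 1 : PowerSeries ℝ) := by
  have h1 : (1 - C x * X ^ i : PowerSeries ℝ)⁻¹ * (1 - C x * X ^ i) = 1 :=
    PowerSeries.inv_mul_cancel _ (by simp [hi])
  refine ⟨(1 - C x * X ^ i : PowerSeries ℝ)⁻¹ * C x, ?_⟩
  linear_combination h1

theorem coeff_G1 (l k M a : ℕ) (t : ℝ) (ha : a ≤ k) (hM : k ≤ M) (hk : 1 ≤ k) :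
    coeff a (G1 l M t) = coeff a (G1 l k t) := by
  induction M, hM using Nat.le_induction with
  | base => rfl
  | succ M hM ih =>
    rw [← ih]
    unfold G1
    rw [Finset.prod_Icc_succ_top (by omega)]
    refine coeff_mul_of_dvd _ _ M a (by omega) ?_
    have h1 := dvd_pow_sub (t ^ (M + 1)) (M + 1) l
    have h2 := dvd_inv_sub (t ^ (M + 1 - 1)) (M + 1) (by omega)
    have : ∀ f f' : PowerSeries ℝ, f * f' - 1 = (f - 1) * f' + (f' - 1) := by
      intro f f'
      ring
    rw [this]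
    exact dvd_add (h1.mul_right _) h2

theorem coeff_G0 (l k M a : ℕ) (t : ℝ) (ha : a ≤ k) (hM : k ≤ M) (hk : 1 ≤ k) :
    coeff a (G0 l M t) = coeff a (G0 l k t) := by
  induction M, hM using Nat.le_induction with
  | base => rfl
  | succ M hM ih =>
    rw [← ih]
    unfold G0
    rw [Finset.prod_Icc_succ_top (by omega)]
    exact coeff_mul_of_dvd _ _ M a (by omega) (dvd_pow_sub (t ^ (M + 1)) (M + 1) l)

theorem coeff_zero_G1 (l k : ℕ) (t : ℝ) : coeff 0 (G1 l k t) = 1 := by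
  rw [coeff_zero_eq_constantCoeff_apply]
  unfold G1
  rw [map_prod]
  refine prod_eq_one fun i hi => ?_
  rw [mem_Icc] at hi
  simp [show i ≠ 0 by omega]

theorem coeff_one_G1 (l k : ℕ) (t : ℝ) : coeff 1 (G1 l k t) = 0 := by
  have h1 : X ^ 2 ∣ G1 l k t - 1 := by
    unfold G1
    refine Finset.prod_induction _ (fun f => X ^ 2 ∣ f - 1) ?_ ?_ ?_
    · intro f f' hf hf'
      have : f * f' - 1 = (f - 1) * f' + (f' - 1) := by ring
      rw [this]
      exact dvd_add (hf.mul_right _) hf'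
    · simp
    · intro i hi
      rw [mem_Icc] at hi
      have h1 := dvd_pow_sub (t ^ i) i l
      have h2 := dvd_inv_sub (t ^ (i - 1)) i (by omega)
      have : ∀ f f' : PowerSeries ℝ, f * f' - 1 = (f - 1) * f' + (f' - 1) := by
        intro f f'
        ring
      rw [this]
      exact (pow_dvd_pow X hi.1).trans (dvd_add (h1.mul_right _) h2)
  have h2 := (PowerSeries.X_pow_dvd_iff.1 h1) 1 (by omega)
  rw [map_sub, coeff_one] at h2
  simpa using h2

/-! ### domination of `W` -/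

theorem cc_le (n i : ℕ) (hi : 2 ≤ i) : cc n i ≤ Nat.log 2 n := by
  unfold cc
  split_ifs with h
  · exact Nat.zero_le _
  · push Not at h
    have h1 : n / i ≤ n / 2 := Nat.div_le_div_left hi (by norm_num)
    have h2 : Nat.log 2 (n / i) ≤ Nat.log 2 (n / 2) := Nat.log_mono_right h1
    rw [Nat.log_div_base] at h2
    have h3 : 1 ≤ Nat.log 2 n := Nat.log_pos (by norm_num) (by omega)
    omega

noncomputable def RR (n M : ℕ) : ℤ⟦X⟧ := ∏ i ∈ Icc 2 M, w i ^ cc n i

theorem RR_eq (n M : ℕ) (h : n ≤ M) : RR n M = ∏ i ∈ Icc 2 n, w i ^ cc n i := by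
  unfold RR
  refine (Finset.prod_subset (Icc_subset_Icc_right h) fun i hi hi' => ?_).symm
  rw [mem_Icc] at hi hi'
  have : cc n i = 0 := by
    unfold cc
    rw [if_pos (Or.inr (by omega))]
  rw [this, pow_zero]

theorem Dm_one_add (i : ℕ) : Dm (C (1 + (-X) ^ i)) (1 + C (X ^ i)) := by
  rw [map_add, map_one]
  refine Nn.one.dm.add ?_
  intro j a
  have := Dm_w i j a
  rw [map_neg] at this
  have h2 : cf j a (-C ((-X) ^ i)) = -cf j a (C ((-X) ^ i)) := by simp [cf]
  rw [h2, abs_neg] at this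
  exact this

theorem Dm_pow_le (i c l : ℕ) (h : c ≤ l) :
    Dm (C (toR (w i ^ c))) ((1 + C (X ^ i)) ^ l) := by
  have h1 : (C (toR (w i ^ c)) : R2) = (C (1 + (-X) ^ i)) ^ c * 1 ^ (l - c) := by
    rw [toR_pow, toR_w, map_pow, one_pow, mul_one]
  have h2 : (1 + C (X ^ i) : R2) ^ l = (1 + C (X ^ i)) ^ c * (1 + C (X ^ i)) ^ (l - c) := by
    rw [← pow_add]
    congr 1
    omega
  rw [h1, h2]
  exact ((Dm_one_add i).pow c).mul ((Nn.one.dm.add_right (Y_nn i)).pow _)

theorem Dm.prod {s : Finset ℕ} {f f' : ℕ → R2} (h : ∀ i ∈ s, Dm (f i) (f' i)) :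
    Dm (∏ i ∈ s, f i) (∏ i ∈ s, f' i) := by
  classical
  induction s using Finset.induction_on with
  | empty => simpa using Nn.one.dm
  | insert i s his ih =>
    rw [prod_insert his, prod_insert his]
    exact (h i (mem_insert_self _ _)).mul (ih fun k hk => h k (mem_insert_of_mem hk))

noncomputable def WW (n M : ℕ) : R2 := C (toR (RR n M)) * HH M

noncomputable def FM (l M : ℕ) : R2 := P2 M * ∏ i ∈ Icc 2 M, ((1 + C (X ^ i)) ^ l * yi i)

theorem WW_dm (hG : GENStmt) (n M : ℕ) (hM : 1 ≤ M) : Dm (WW n M) (FM (Nat.log 2 n) M) := by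
  have h1 := HH_dm hG M hM
  have h2 : Dm (C (toR (RR n M)) : R2) (∏ i ∈ Icc 2 M, (1 + C (X ^ i)) ^ Nat.log 2 n) := by
    unfold RR
    rw [toR_prod, map_prod]
    refine Dm.prod fun i hi => ?_
    rw [mem_Icc] at hi
    exact Dm_pow_le i _ _ (cc_le n i hi.1)
  have h3 : FM (Nat.log 2 n) M = (∏ i ∈ Icc 2 M, (1 + C (X ^ i)) ^ Nat.log 2 n) * ph M := by
    unfold FM ph
    rw [prod_mul_distrib]
    ring
  rw [h3]
  exact h2.mul h1

theorem cf_WW (hG : GENStmt) (n M j a : ℕ) (hj : j ≤ M) (hn : n ≤ M) : cf j a (WW n M) =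
    ((coeff a ((∏ i ∈ Icc 2 n, w i ^ cc n i) * h2 j) : ℤ) : ℝ) := by
  unfold WW
  rw [cf_C_mul]
  unfold HH
  rw [coeff_mk, ← toR_mul, coeff_toR, RR_eq n M hn, hG.2.2.2.2.2 _ _ hj]

/-! ### the two sums -/

theorem w_one : w 1 = 1 - X := by
  unfold w
  ring

theorem g_one : g 1 = PowerSeries.mk 1 := by
  have h1 := w_mul_g 1 le_rfl
  have h2 : (PowerSeries.mk 1 : ℤ⟦X⟧) * (1 - X) = 1 := mk_one_mul_one_sub_eq_one _
  rw [w_one] at h1
  linear_combination (PowerSeries.mk 1 : ℤ⟦X⟧) * h1 - g 1 * h2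

theorem den_eq (n : ℕ) (hn : 1 ≤ n) :
    den n = w 1 ^ (Nat.log 2 n + 1) * ∏ i ∈ Icc 2 n, w i ^ cc n i := by
  unfold den
  have h1 : Icc 1 n = insert 1 (Icc 2 n) := by
    ext i
    rw [mem_insert, mem_Icc, mem_Icc]
    omega
  rw [h1, prod_insert (by simp)]
  congr 2
  unfold cc
  rw [if_neg (by omega), Nat.div_one]

theorem main_eq (hG : GENStmt) (n n' l : ℕ) (hl : l = Nat.log 2 n) (hn : n = n' + (l + 3)) :
    (1 - X) * P n = ∑ j ∈ range (n' + 1), g 1 ^ (n' - j + 1) *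
        ((∏ i ∈ Icc 2 n, w i ^ cc n i) * h2 j) +
      ∑ m ∈ range (l + 3), (1 - X) ^ m *
        ((∏ i ∈ Icc 2 n, w i ^ cc n i) * h2 (n' + 1 + m)) := by
  have hg := w_mul_g 1 le_rfl
  have hpow : ∀ s : ℕ, w 1 ^ s * g 1 ^ s = 1 := by
    intro s
    rw [← mul_pow, hg, one_pow]
  unfold P
  rw [den_eq n (by omega), h_eq hG, ← hl]
  set R := ∏ i ∈ Icc 2 n, w i ^ cc n i
  have h1 : (1 - X) * (w 1 ^ (l + 1) * R * ∑ j ∈ range (n + 1), g 1 ^ (n - j) * h2 j) =
      ∑ j ∈ range (n' + 1 + (l + 3)), w 1 ^ (l + 2) * g 1 ^ (n - j) * (R * h2 j) := by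
    have h2 : n' + 1 + (l + 3) = n + 1 := by omega
    rw [h2, ← w_one, mul_sum, mul_sum]
    refine sum_congr rfl fun j _ => ?_
    ring
  rw [h1, Finset.sum_range_add]
  congr 1
  · refine sum_congr rfl fun j hj => ?_
    rw [mem_range] at hj
    have h3 : n - j = (l + 2) + (n' - j + 1) := by omega
    rw [h3, pow_add (g 1), ← mul_assoc (w 1 ^ (l + 2)), hpow, one_mul]
  · refine sum_congr rfl fun m hm => ?_
    rw [mem_range] at hm
    have h3 : l + 2 = m + (n - (n' + 1 + m)) := by omega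
    rw [h3, pow_add (w 1), mul_assoc (w 1 ^ m), hpow, mul_one, w_one]

theorem coeff_one_sub_pow (m b : ℕ) : |((coeff b ((1 - X : ℤ⟦X⟧) ^ m) : ℤ) : ℝ)| ≤ m.choose b := by
  induction m generalizing b with
  | zero =>
    rw [pow_zero, coeff_one]
    cases b <;> simp
  | succ m ih =>
    have h1 : (1 - X : ℤ⟦X⟧) ^ (m + 1) = (1 - X) ^ m - X * (1 - X) ^ m := by ring
    rw [h1, map_sub]
    cases b with
    | zero =>
      simp
    | succ b =>
      rw [coeff_succ_X_mul, Nat.choose_succ_succ, Int.cast_sub, Nat.cast_add]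
      have h2 := ih b
      have h3 := ih (b + 1)
      refine (abs_sub _ _).trans ?_
      linarith

theorem sum_choose (b e : ℕ) : ∑ m ∈ range e, m.choose b = e.choose (b + 1) := by
  induction e with
  | zero => simp
  | succ e ih => rw [sum_range_succ, ih, Nat.choose_succ_succ, add_comm]

theorem coeff_g_pow_mul (d k : ℕ) (f : ℤ⟦X⟧) : ((coeff k (g 1 ^ (d + 1) * f) : ℤ) : ℝ) =
    ∑ q ∈ antidiagonal k, ((q.1 + d).choose q.1 : ℝ) * ((coeff q.2 f : ℤ) : ℝ) := by
  rw [g_one, mk_one_pow_eq_mk_choose_add, coeff_mul, Int.cast_sum]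
  refine sum_congr rfl fun q _ => ?_
  rw [coeff_mk]
  push_cast
  rw [add_comm d q.1, Nat.choose_symm_add]

theorem first_sum (hG : GENStmt) (n n' M k : ℕ) (hn : n ≤ M) (hn' : n' ≤ n) :
    (((∑ j ∈ range (n' + 1), coeff k (g 1 ^ (n' - j + 1) *
        ((∏ i ∈ Icc 2 n, w i ^ cc n i) * h2 j)) : ℤ)) : ℝ) =
      ∑ q ∈ antidiagonal k, cf n' q.2 (Sv ^ (q.1 + 1) * WW n M) := by
  rw [Int.cast_sum]
  simp_rw [coeff_g_pow_mul]
  rw [sum_comm]
  refine sum_congr rfl fun q _ => ?_
  rw [cf_Sv_pow_mul]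
  refine sum_congr rfl fun i hi => ?_
  rw [mem_range] at hi
  rw [cf_WW hG n M i q.2 (by omega) hn]

theorem anti_sum (k : ℕ) (f : ℕ → ℕ → ℝ) :
    ∑ q ∈ antidiagonal k, f q.1 q.2 = ∑ a ∈ range (k + 1), f (k - a) a := by
  rw [Finset.Nat.sum_antidiagonal_eq_sum_range_succ f k, ← sum_range_reflect]
  refine sum_congr rfl fun i hi => ?_
  rw [mem_range] at hi
  have h1 : k.succ - 1 - i = k - i := by omega
  have h2 : k - (k.succ - 1 - i) = i := by omega
  rw [h2, h1]

theorem sk_chain (k j0 : ℕ) (t : ℝ) (ht : 0 < t)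
    (h : ∀ m, 1 ≤ m → m ≤ k → (sk (m - 1) j0 : ℝ) ≤ t * sk m j0) (d : ℕ) (hd : d ≤ k) :
    (sk (k - d) j0 : ℝ) ≤ t ^ d * sk k j0 := by
  induction d with
  | zero => simp
  | succ d ih =>
    have h1 := ih (by omega)
    have h2 := h (k - d) (by omega) (by omega)
    have h3 : k - d - 1 = k - (d + 1) := by omega
    rw [h3] at h2
    calc (sk (k - (d + 1)) j0 : ℝ) ≤ t * sk (k - d) j0 := h2
      _ ≤ t * (t ^ d * sk k j0) := mul_le_mul_of_nonneg_left h1 ht.le
      _ = t ^ (d + 1) * sk k j0 := by ring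

theorem sk_down (k n' : ℕ) (t : ℝ) (ht : t < 1) (hk : 1 ≤ k) (D : ℕ)
    (h : ∀ j, n' ≤ j → j ≤ n' + D → (sk (k - 1) j : ℝ) ≤ t * sk k j) (d : ℕ) (hd : d ≤ D) :
    (1 - t) ^ d * sk k (n' + d) ≤ (sk k n' : ℝ) := by
  induction d with
  | zero => simp
  | succ d ih =>
    have h1 := ih (by omega)
    have h2 := h (n' + (d + 1)) (by omega) (by omega)
    have h3 : (sk k (n' + (d + 1)) : ℝ) = sk k (n' + d) + sk (k - 1) (n' + (d + 1)) := by
      obtain ⟨m, rfl⟩ : ∃ m, k = m + 1 := ⟨k - 1, by omega⟩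
      have e1 : sk (m + 1) (n' + (d + 1)) = ∑ j ∈ range (n' + (d + 1) + 1), sk m j := rfl
      have e2 : sk (m + 1) (n' + d) = ∑ j ∈ range (n' + d + 1), sk m j := rfl
      rw [e1, e2, Nat.add_sub_cancel, sum_range_succ]
      push_cast
      rfl
    have h4 : (1 - t) * sk k (n' + (d + 1)) ≤ (sk k (n' + d) : ℝ) := by
      rw [h3] at h2 ⊢
      linarith
    calc (1 - t) ^ (d + 1) * (sk k (n' + (d + 1)) : ℝ) =
        (1 - t) ^ d * ((1 - t) * sk k (n' + (d + 1))) := by ring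
      _ ≤ (1 - t) ^ d * sk k (n' + d) :=
        mul_le_mul_of_nonneg_left h4 (pow_nonneg (by linarith) _)
      _ ≤ sk k n' := h1

theorem sk_mono (k a b : ℕ) (hk : 1 ≤ k) (h : a ≤ b) : sk k a ≤ sk k b := by
  obtain ⟨m, rfl⟩ : ∃ m, k = m + 1 := ⟨k - 1, by omega⟩
  have e1 : sk (m + 1) a = ∑ j ∈ range (a + 1), sk m j := rfl
  have e2 : sk (m + 1) b = ∑ j ∈ range (b + 1), sk m j := rfl
  rw [e1, e2]
  exact sum_le_sum_of_subset (range_subset_range.2 (by omega))

end IVE

open PowerSeries Finset IVE in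
theorem IVE_thm (_ : RECStmt) (hG : GENStmt) : IVEStmt := by
  intro n k L t hn hL hk ht ht1 hsk
  have hLn : L + 2 ≤ n := by
    have h1 : 2 ^ Nat.log 2 n ≤ n := Nat.pow_log_le_self 2 (by omega)
    have h2 : Nat.log 2 n + 3 ≤ 2 ^ Nat.log 2 n := by
      have h3 : 10 ≤ Nat.log 2 n := by
        rw [Nat.le_log_iff_pow_le (by norm_num) (by omega)]
        omega
      have h4 : ∀ m, 10 ≤ m → m + 3 ≤ 2 ^ m := by
        intro m hm
        induction m, hm using Nat.le_induction with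
        | base => norm_num
        | succ m hm ih => rw [pow_succ]; omega
      exact h4 _ h3
    omega
  obtain ⟨n', hn'⟩ : ∃ n', n' = n - (L + 2) := ⟨_, rfl⟩
  obtain ⟨l, hl⟩ : ∃ l, l = Nat.log 2 n := ⟨_, rfl⟩
  have hLl : L = l + 1 := by omega
  rw [← hn']
  obtain ⟨M, hM⟩ : ∃ M, M = max n k := ⟨_, rfl⟩
  have hMn : n ≤ M := by rw [hM]; exact le_max_left _ _
  have hMk : k ≤ M := by rw [hM]; exact le_max_right _ _
  -- the invariants
  have hK : ∀ j0 K, n' ≤ j0 → j0 ≤ n → (sk k j0 : ℝ) ≤ K →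
      Inv k j0 t K (FM l M) (G1 l M t) (G0 l M t) := by
    intro j0 K h1 h2 h3
    refine (inv_start hG M k j0 t K (by omega) fun c hc hck => ?_).prod l M (by omega)
    have h4 := sk_chain k j0 t ht (fun m hm hmk => hsk j0 m (by omega) h2 hm hmk) (k + 1 - c)
      (by omega)
    have h5 : k - (k + 1 - c) = c - 1 := by omega
    rw [h5] at h4
    exact h4.trans (mul_le_mul_of_nonneg_left h3 (by positivity))
  have hdm : Dm (WW n M) (FM l M) := by
    rw [hl]
    exact WW_dm hG n M (by omega)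
  set W : ℕ → ℤ⟦X⟧ := fun j => (∏ i ∈ Icc 2 n, w i ^ cc n i) * h2 j with hW
  have hcf : ∀ j a, j ≤ n → cf j a (WW n M) = ((coeff a (W j) : ℤ) : ℝ) := fun j a hj =>
    cf_WW hG n M j a (by omega) hMn
  have hmain : df (P n) k = ∑ j ∈ range (n' + 1), coeff k (g 1 ^ (n' - j + 1) * W j) +
      ∑ m ∈ range (l + 3), coeff k ((1 - X) ^ m * W (n' + 1 + m)) := by
    unfold df
    rw [main_eq hG n n' l hl (by omega), map_add, map_sum, map_sum]
  -- the first sum
  have hfirst : |(((∑ j ∈ range (n' + 1), coeff k (g 1 ^ (n' - j + 1) * W j) : ℤ)) : ℝ) -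
      sk k n'| ≤ EE L k t * sk k n' := by
    rw [first_sum hG n n' M k hMn (by omega),
      anti_sum k (fun b a => cf n' a (Sv ^ (b + 1) * WW n M)), sum_range_succ']
    have h0 : cf n' 0 (Sv ^ (k - 0 + 1) * WW n M) = sk k n' := by
      rw [cf_Sv_pow_mul]
      rw [← Sv_P2 hG M k n' (by omega), cf_Sv_pow_mul]
      refine sum_congr rfl fun i hi => ?_
      rw [mem_range] at hi
      congr 1
      rw [hcf i 0 (by omega), cf_P2, if_pos rfl, hG.2.2.2.2.2 _ _ (by omega)]
      congr 1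
      simp only [hW, coeff_zero_eq_constantCoeff, map_mul, map_prod, map_pow]
      rw [prod_eq_one, one_mul]
      intro i hi
      rw [mem_Icc] at hi
      have := coeff_zero_w i (by omega)
      rw [coeff_zero_eq_constantCoeff_apply] at this
      rw [this, one_pow]
    rw [h0, add_sub_cancel_right]
    refine (abs_sum_le_sum_abs _ _).trans ?_
    have h1 : ∀ a ∈ range k, |cf n' (a + 1) (Sv ^ (k - (a + 1) + 1) * WW n M)| ≤
        coeff (a + 1) (G1 l k t) * sk k n' := by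
      intro a ha
      rw [mem_range] at ha
      have h2 := (Sv_nn.pow (k - (a + 1) + 1)).dm.mul hdm n' (a + 1)
      have h3 := (hK n' (sk k n') le_rfl (by omega) le_rfl).pos (a + 1) (k - (a + 1) + 1)
        (by omega) (by omega)
      have h4 : k + 1 - (k - (a + 1) + 1) - (a + 1) = 0 := by omega
      rw [h4, pow_zero, one_mul, coeff_G1 l k M (a + 1) t (by omega) hMk (by omega)] at h3
      exact h2.trans h3
    refine (sum_le_sum h1).trans (le_of_eq ?_)
    rw [← sum_mul]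
    congr 1
    unfold EE
    have h5 : L - 1 = l := by omega
    rw [h5]
    obtain ⟨k', rfl⟩ : ∃ k', k = k' + 1 := ⟨k - 1, by omega⟩
    rw [sum_range_succ', coeff_one_G1, add_zero]
    rw [Finset.range_eq_Ico, Finset.sum_Ico_add' (fun x => coeff x (G1 l (k' + 1) t)) 0 k' 2]
    rfl
  -- the second sum
  have hsecond : |(((∑ m ∈ range (l + 3), coeff k ((1 - X) ^ m * W (n' + 1 + m)) : ℤ)) : ℝ)| ≤
      YY L k t * sk k n' := by
    rw [Int.cast_sum]
    refine (abs_sum_le_sum_abs _ _).trans ?_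
    set K : ℝ := (sk k n : ℝ) with hKd
    have h1 : ∀ m ∈ range (l + 3), |((coeff k ((1 - X) ^ m * W (n' + 1 + m)) : ℤ) : ℝ)| ≤
        ∑ q ∈ antidiagonal k, (m.choose q.1 : ℝ) * (t ^ (k - q.2) *
          (coeff q.2 (G0 l k t) + t * (coeff q.2 (G1 l k t) - coeff q.2 (G0 l k t))) * K) := by
      intro m hm
      rw [mem_range] at hm
      rw [coeff_mul, Int.cast_sum]
      refine (abs_sum_le_sum_abs _ _).trans (sum_le_sum fun q hq => ?_)
      rw [HasAntidiagonal.mem_antidiagonal] at hq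
      rw [Int.cast_mul, abs_mul]
      refine mul_le_mul (coeff_one_sub_pow m q.1) ?_ (abs_nonneg _) (Nat.cast_nonneg _)
      rw [← hcf (n' + 1 + m) q.2 (by omega)]
      refine (hdm _ _).trans ?_
      have h3 := (hK (n' + 1 + m) K (by omega) (by omega)
        (by rw [hKd]; exact_mod_cast sk_mono k _ _ (by omega) (by omega))).zero q.2 (by omega)
      rw [coeff_G1 l k M q.2 t (by omega) hMk (by omega),
        coeff_G0 l k M q.2 t (by omega) hMk (by omega)] at h3
      exact h3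
    refine (sum_le_sum h1).trans ?_
    rw [sum_comm]
    have h2 : ∀ q ∈ antidiagonal k, ∑ m ∈ range (l + 3), (m.choose q.1 : ℝ) * (t ^ (k - q.2) *
          (coeff q.2 (G0 l k t) + t * (coeff q.2 (G1 l k t) - coeff q.2 (G0 l k t))) * K) =
        (((l + 3).choose (q.1 + 1) : ℕ) : ℝ) * (t ^ (k - q.2) *
          (coeff q.2 (G0 l k t) + t * (coeff q.2 (G1 l k t) - coeff q.2 (G0 l k t)))) * K := by
      intro q _
      rw [← sum_mul, ← Nat.cast_sum, sum_choose]
      ring
    rw [sum_congr rfl h2, ← sum_mul, anti_sum k (fun b a =>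
      (((l + 3).choose (b + 1) : ℕ) : ℝ) * (t ^ (k - a) *
          (coeff a (G0 l k t) + t * (coeff a (G1 l k t) - coeff a (G0 l k t)))))]
    have hdown : K ≤ ((1 - t) ^ (L + 2))⁻¹ * sk k n' := by
      have h3 := sk_down k n' t ht1 (by omega) (L + 2)
        (fun j h1 h2 => hsk j k (by omega) (by omega) (by omega) le_rfl) (L + 2) le_rfl
      have h4 : n' + (L + 2) = n := by omega
      rw [h4] at h3
      have h5 : 0 < (1 - t) ^ (L + 2) := pow_pos (by linarith) _
      rw [inv_mul_eq_div, le_div_iff₀ h5, mul_comm]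
      exact h3
    have hnn : 0 ≤ ∑ a ∈ range (k + 1), (((l + 3).choose (k - a + 1) : ℕ) : ℝ) * (t ^ (k - a) *
          (coeff a (G0 l k t) + t * (coeff a (G1 l k t) - coeff a (G0 l k t)))) := by
      refine sum_nonneg fun a ha => mul_nonneg (Nat.cast_nonneg _) ?_
      rw [mem_range] at ha
      have h3 := (hK n (K + 1) (by omega) le_rfl (by linarith)).zero a (by omega)
      rw [coeff_G1 l k M a t (by omega) hMk (by omega),
        coeff_G0 l k M a t (by omega) hMk (by omega)] at h3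
      have h4 := hdm.nn n a
      have hK1 : 0 < K + 1 := by
        have : 0 ≤ K := Nat.cast_nonneg _
        linarith
      refine le_of_mul_le_mul_right ?_ hK1
      rw [zero_mul]
      exact h4.trans h3
    refine (mul_le_mul_of_nonneg_left hdown hnn).trans (le_of_eq ?_)
    unfold YY
    have h5 : L - 1 = l := by omega
    have h6 : L + 2 = l + 3 := by omega
    rw [h5, h6, ← mul_assoc, mul_comm (∑ a ∈ range (k + 1), _)]
    congr 2
    refine sum_congr rfl fun a _ => ?_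
    ring
  rw [hmain]
  push_cast
  push_cast at hfirst hsecond
  have h7 : (EE L k t + YY L k t) * sk k n' = EE L k t * sk k n' + YY L k t * sk k n' := by ring
  rw [h7]
  refine le_trans ?_ (add_le_add hfirst hsecond)
  refine le_trans (le_of_eq ?_) (abs_add_le _ _)
  congr 1
  ring

end Pool.Agent.H37.UM
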